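import Mathlib
import Pool.Agent.Lib.MP_c95b3b_ag_R.Final
import Pool.Agent.Lib.MP_c95b3b_ag_R.Stab
import Pool.Agent.Lib.MP_c95b3b_ag_R.Trans

/-! The reduction of S00439 (MP_c95b3b_ag) from the complex numbers to the algebraic numbers. -/

set_option autoImplicit false

namespace Pool.Agent.CITF

open MvPolynomial Filter Pool.Agent.CITR

/-- The ideal is generated by polynomials with algebraic coefficients. -/
def OverQbar (m : ℕ) (Q : Ideal (MvPolynomial (Fin m) ℂ)) : Prop :=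
  Q = Ideal.span {g | g ∈ Q ∧ ∀ s, IsAlgebraic ℚ (coeff s g)}

/-- The algebraic points of `U(Q)` are dense. -/
def DenseU (m : ℕ) (Q : Ideal (MvPolynomial (Fin m) ℂ)) : Prop :=
  ∀ f, (∀ y, Unlikely m Q y → (∀ l, IsAlgebraic ℚ (y l)) → eval y f = 0) →
    ∀ y, OnTorus m Q y → eval y f = 0

/-- No one-parameter subgroup maps `V(Q)` to itself. -/
def FinStab (m : ℕ) (Q : Ideal (MvPolynomial (Fin m) ℂ)) : Prop :=
  ∀ v : Fin m → ℤ, v ≠ 0 → ∃ y, OnTorus m Q y ∧ ∃ t : ℂ, t ≠ 0 ∧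
    ¬ OnTorus m Q (fun l => t ^ v l * y l)

/-- S00439 follows from the statement over the algebraic numbers. -/
theorem zilber_of_qbar (H : ∀ (m : ℕ) (Q : Ideal (MvPolynomial (Fin m) ℂ)), Q.IsPrime →
      (∏ l : Fin m, (X l : MvPolynomial (Fin m) ℂ)) ∉ Q → OverQbar m Q → DenseU m Q →
      1 ≤ ringKrullDim (MvPolynomial (Fin m) ℂ ⧸ Q) →
      ringKrullDim (MvPolynomial (Fin m) ℂ ⧸ Q) + 2 ≤ (m : WithBot ℕ∞) → FinStab m Q →
      InSubgroup m Q)
    (n : ℕ) (P : Ideal (MvPolynomial (Fin n) ℂ)) (hP : P.IsPrime)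
    (hX : (∏ i : Fin n, (X i : MvPolynomial (Fin n) ℂ)) ∉ P)
    (hU : ∀ f : MvPolynomial (Fin n) ℂ,
      (∀ x : Fin n → ℂ, (∀ i, x i ≠ 0) → (∀ g ∈ P, MvPolynomial.eval x g = 0) →
        (∃ Λ : Submodule ℤ (Fin n → ℤ),
          ringKrullDim (MvPolynomial (Fin n) ℂ ⧸ P)
              + ((n - Module.finrank ℤ Λ : ℕ) : WithBot ℕ∞) + 1 ≤ (n : WithBot ℕ∞) ∧
          ∀ a ∈ Λ, ∏ i : Fin n, x i ^ a i = 1) →
        MvPolynomial.eval x f = 0) →
      ∀ x : Fin n → ℂ, (∀ i, x i ≠ 0) → (∀ g ∈ P, MvPolynomial.eval x g = 0) →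
        MvPolynomial.eval x f = 0) :
    ∃ a : Fin n → ℤ, a ≠ 0 ∧
      ∀ x : Fin n → ℂ, (∀ i, x i ≠ 0) → (∀ g ∈ P, MvPolynomial.eval x g = 0) →
        ∏ i : Fin n, x i ^ a i = 1 := by
  by_contra hne
  have hU' : ∀ f : MvPolynomial (Fin n) ℂ, (∀ x, Unlikely n P x → eval x f = 0) →
      ∀ x, OnTorus n P x → eval x f = 0 := by
    intro f hf x hx
    exact hU f (fun x hx0 hxP hΛ => hf x ⟨⟨hx0, hxP⟩, hΛ⟩) x hx.1 hx.2
  have hne' : ¬ InSubgroup n P := by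
    rintro ⟨a, ha, h⟩
    exact hne ⟨a, ha, fun x hx0 hxP => h x ⟨hx0, hxP⟩⟩
  obtain ⟨m, γ, Q, ⟨-, hQ, hXQ, -, halg, hdense, hnQ, hd1, hd2⟩, hfin⟩ :=
    result_stab n P hP hX hU' hne'
  exact hnQ (H m Q hQ hXQ halg hdense hd1 hd2 hfin)

/-- The polynomials with algebraic coefficients form a countable set. -/
theorem countable_algebraic (m : ℕ) :
    {g : MvPolynomial (Fin m) ℂ | ∀ s, IsAlgebraic ℚ (coeff s g)}.Countable := by
  have h1 : Countable (algebraicClosure ℚ ℂ) := by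
    have h := Algebraic.countable ℚ ℂ
    have h2 : ((algebraicClosure ℚ ℂ : IntermediateField ℚ ℂ) : Set ℂ).Countable := by
      refine h.mono fun x hx => ?_
      exact mem_algebraicClosure_iff.mp hx
    exact h2.to_subtype
  have h2 : Countable (MvPolynomial (Fin m) (algebraicClosure ℚ ℂ)) := by
    rw [← Cardinal.mk_le_aleph0_iff]
    refine (MvPolynomial.cardinalMk_le_max (σ := Fin m)).trans ?_
    refine max_le (max_le ?_ ?_) le_rfl
    · exact Cardinal.mk_le_aleph0_iff.mpr h1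
    · exact Cardinal.mk_le_aleph0_iff.mpr inferInstance
  refine (Set.countable_range (MvPolynomial.map (algebraMap (algebraicClosure ℚ ℂ) ℂ) :
    MvPolynomial (Fin m) (algebraicClosure ℚ ℂ) → MvPolynomial (Fin m) ℂ)).mono ?_
  intro g hg
  have h3 : g ∈ Set.range (MvPolynomial.map (algebraMap (algebraicClosure ℚ ℂ) ℂ)) := by
    rw [mem_range_map_iff_coeffs_subset]
    intro c hc
    rw [Finset.mem_coe, mem_coeffs_iff] at hc
    obtain ⟨s, -, rfl⟩ := hc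
    exact ⟨⟨coeff s g, mem_algebraicClosure_iff.mpr (hg s)⟩, rfl⟩
  exact h3

/-- A polynomial is a combination of polynomials with algebraic coefficients, with coefficients
which are linearly independent over the algebraic numbers. -/
theorem exists_decomp {m : ℕ} (f : MvPolynomial (Fin m) ℂ) :
    ∃ (ι : Type) (T : Finset ι) (b : ι → ℂ) (g : ι → MvPolynomial (Fin m) ℂ),
      (∀ i s, IsAlgebraic ℚ (coeff s (g i))) ∧ f = ∑ i ∈ T, C (b i) * g i ∧
      ∀ y : Fin m → ℂ, (∀ l, IsAlgebraic ℚ (y l)) → eval y f = 0 → ∀ i ∈ T, eval y (g i) = 0 := by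
  classical
  let F := algebraicClosure ℚ ℂ
  obtain ⟨ι, bas⟩ : Σ ι : Type, Module.Basis ι F ℂ :=
    ⟨_, Module.Basis.ofVectorSpace F ℂ⟩
  have hg : ∀ i s, coeff s (∑ s ∈ f.support, monomial s ((bas.repr (coeff s f) i : F) : ℂ)) =
      ((bas.repr (coeff s f) i : F) : ℂ) := by
    intro i s
    rw [coeff_sum, Finset.sum_eq_single s]
    · rw [coeff_monomial, if_pos rfl]
    · intro t _ hts
      rw [coeff_monomial, if_neg hts]
    · intro hs
      rw [MvPolynomial.notMem_support_iff.mp hs, map_zero]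
      simp
  have hf : f = ∑ i ∈ f.support.biUnion (fun s => (bas.repr (coeff s f)).support),
      C (bas i) * ∑ s ∈ f.support, monomial s ((bas.repr (coeff s f) i : F) : ℂ) := by
    ext s
    rw [coeff_sum]
    have h1 : ∀ i, coeff s (C (bas i) * ∑ s ∈ f.support,
        monomial s ((bas.repr (coeff s f) i : F) : ℂ)) = (bas.repr (coeff s f) i) • bas i := by
      intro i
      rw [coeff_C_mul, hg, Algebra.smul_def, mul_comm]
      rfl
    rw [Finset.sum_congr rfl fun i _ => h1 i]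
    by_cases hs : s ∈ f.support
    · conv_lhs => rw [← bas.linearCombination_repr (coeff s f), Finsupp.linearCombination_apply,
        Finsupp.sum]
      refine Finset.sum_subset (Finset.subset_biUnion_of_mem (fun s =>
        (bas.repr (coeff s f)).support) hs) fun i _ hi => ?_
      rw [Finsupp.notMem_support_iff.mp hi, zero_smul]
    · rw [MvPolynomial.notMem_support_iff.mp hs, map_zero]
      simp
  refine ⟨ι, f.support.biUnion fun s => (bas.repr (coeff s f)).support, bas,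
    fun i => ∑ s ∈ f.support, monomial s ((bas.repr (coeff s f) i : F) : ℂ), ?_, hf, ?_⟩
  · intro i s
    rw [hg]
    exact mem_algebraicClosure_iff.mp (bas.repr (coeff s f) i).2
  · intro y hy h0
    rw [hf, map_sum] at h0
    have hF : ∀ i, eval y (∑ s ∈ f.support, monomial s ((bas.repr (coeff s f) i : F) : ℂ)) ∈ F := by
      intro i
      rw [map_sum]
      refine sum_mem fun s _ => ?_
      rw [eval_monomial]
      refine mul_mem (bas.repr (coeff s f) i).2 (prod_mem fun l _ => pow_mem ?_ _)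
      exact mem_algebraicClosure_iff.mpr (hy l)
    have hli := bas.linearIndependent
    rw [linearIndependent_iff'] at hli
    have h1 := hli (f.support.biUnion fun s => (bas.repr (coeff s f)).support)
      (fun i => ⟨_, hF i⟩) (by
        rw [← h0]
        refine Finset.sum_congr rfl fun i _ => ?_
        rw [map_mul, eval_C, Algebra.smul_def, mul_comm]
        rfl)
    intro i hi
    exact congrArg Subtype.val (h1 i hi)

/-- A generic sequence of algebraic unlikely points. -/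
theorem exists_seq (m : ℕ) (Q : Ideal (MvPolynomial (Fin m) ℂ)) (hQ : Q.IsPrime)
    (hX : (∏ l : Fin m, (X l : MvPolynomial (Fin m) ℂ)) ∉ Q) (hU : DenseU m Q) :
    ∃ P : ℕ → Fin m → ℂ, (∀ ν, Unlikely m Q (P ν)) ∧ (∀ ν l, IsAlgebraic ℚ (P ν l)) ∧
      ∀ f ∉ Q, ∀ᶠ ν in atTop, eval (P ν) f ≠ 0 := by
  classical
  have hc : {g : MvPolynomial (Fin m) ℂ | g ∉ Q ∧ ∀ s, IsAlgebraic ℚ (coeff s g)}.Countable :=
    (countable_algebraic m).mono fun g hg => hg.2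
  have h1 : (1 : MvPolynomial (Fin m) ℂ) ∉ Q :=
    fun h => hQ.ne_top ((Ideal.eq_top_iff_one Q).mpr h)
  have hne : {g : MvPolynomial (Fin m) ℂ | g ∉ Q ∧ ∀ s, IsAlgebraic ℚ (coeff s g)}.Nonempty := by
    refine ⟨1, h1, fun s => ?_⟩
    rw [coeff_one]
    split_ifs
    · exact isAlgebraic_one
    · exact isAlgebraic_zero
  obtain ⟨F, hF⟩ := hc.exists_eq_range hne
  have hFQ : ∀ k, F k ∉ Q := fun k => by
    have : F k ∈ {g : MvPolynomial (Fin m) ℂ | g ∉ Q ∧ ∀ s, IsAlgebraic ℚ (coeff s g)} := by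
      rw [hF]; exact ⟨k, rfl⟩
    exact this.1
  have hex : ∀ ν : ℕ, ∃ y, Unlikely m Q y ∧ (∀ l, IsAlgebraic ℚ (y l)) ∧
      eval y (∏ k ∈ Finset.range (ν + 1), F k) ≠ 0 := by
    intro ν
    by_contra hcon
    push Not at hcon
    have h2 := hU _ hcon
    have h3 := UltraAux.mem_of_onTorus m Q hQ hX _ h2
    obtain ⟨k, -, hk⟩ := (Ideal.IsPrime.prod_mem_iff (hp := hQ)).mp h3
    exact hFQ k hk
  choose P hP1 hP2 hP3 using hex
  refine ⟨P, hP1, hP2, fun f hf => ?_⟩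
  obtain ⟨ι, T, b, g, hg, hfg, hy⟩ := exists_decomp f
  obtain ⟨i, hi, hgi⟩ : ∃ i ∈ T, g i ∉ Q := by
    by_contra hcon
    push Not at hcon
    apply hf
    rw [hfg]
    exact Ideal.sum_mem _ fun i hi => Ideal.mul_mem_left _ _ (hcon i hi)
  have h4 : g i ∈ {g : MvPolynomial (Fin m) ℂ | g ∉ Q ∧ ∀ s, IsAlgebraic ℚ (coeff s g)} :=
    ⟨hgi, hg i⟩
  rw [hF] at h4
  obtain ⟨k, hk⟩ := h4
  filter_upwards [eventually_ge_atTop k] with ν hν h0
  apply hP3 ν
  rw [map_prod]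
  refine Finset.prod_eq_zero (Finset.mem_range.mpr (Nat.lt_succ_of_le hν)) ?_
  rw [hk]
  exact hy (P ν) (hP2 ν) h0 i hi

/-- S00439 follows from the statement on generic sequences of algebraic points. -/
theorem zilber_of_seq (H : ∀ (m d : ℕ) (Q : Ideal (MvPolynomial (Fin m) ℂ)), Q.IsPrime →
      (∏ l : Fin m, (X l : MvPolynomial (Fin m) ℂ)) ∉ Q → OverQbar m Q →
      ringKrullDim (MvPolynomial (Fin m) ℂ ⧸ Q) = (d : WithBot ℕ∞) → 1 ≤ d → d + 2 ≤ m →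
      FinStab m Q → ∀ P : ℕ → Fin m → ℂ, (∀ ν l, P ν l ≠ 0) → (∀ ν l, IsAlgebraic ℚ (P ν l)) →
      (∀ ν, ∀ g ∈ Q, eval (P ν) g = 0) → (∀ f ∉ Q, ∀ᶠ ν in atTop, eval (P ν) f ≠ 0) →
      (∀ ν, ∃ Λ : Submodule ℤ (Fin m → ℤ), d + 1 ≤ Module.finrank ℤ Λ ∧
        ∀ a ∈ Λ, ∏ l, P ν l ^ a l = 1) →
      ∃ a : Fin m → ℤ, a ≠ 0 ∧ ∀ᶠ ν in atTop, ∏ l, P ν l ^ a l = 1)
    (n : ℕ) (P : Ideal (MvPolynomial (Fin n) ℂ)) (hP : P.IsPrime)
    (hX : (∏ i : Fin n, (X i : MvPolynomial (Fin n) ℂ)) ∉ P)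
    (hU : ∀ f : MvPolynomial (Fin n) ℂ,
      (∀ x : Fin n → ℂ, (∀ i, x i ≠ 0) → (∀ g ∈ P, MvPolynomial.eval x g = 0) →
        (∃ Λ : Submodule ℤ (Fin n → ℤ),
          ringKrullDim (MvPolynomial (Fin n) ℂ ⧸ P)
              + ((n - Module.finrank ℤ Λ : ℕ) : WithBot ℕ∞) + 1 ≤ (n : WithBot ℕ∞) ∧
          ∀ a ∈ Λ, ∏ i : Fin n, x i ^ a i = 1) →
        MvPolynomial.eval x f = 0) →
      ∀ x : Fin n → ℂ, (∀ i, x i ≠ 0) → (∀ g ∈ P, MvPolynomial.eval x g = 0) →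
        MvPolynomial.eval x f = 0) :
    ∃ a : Fin n → ℤ, a ≠ 0 ∧
      ∀ x : Fin n → ℂ, (∀ i, x i ≠ 0) → (∀ g ∈ P, MvPolynomial.eval x g = 0) →
        ∏ i : Fin n, x i ^ a i = 1 := by
  refine zilber_of_qbar (fun m Q hQ hXQ halg hdense hd1 hd2 hfin => ?_) n P hP hX hU
  obtain ⟨P, hP1, hP2, hP3⟩ := exists_seq m Q hQ hXQ hdense
  obtain ⟨d, hd⟩ : ∃ d : ℕ, ringKrullDim (MvPolynomial (Fin m) ℂ ⧸ Q) = (d : WithBot ℕ∞) := by
    have h1 : ringKrullDim (MvPolynomial (Fin m) ℂ ⧸ Q) ≠ ⊥ := by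
      intro h
      rw [h] at hd1
      exact absurd hd1 (by simp)
    obtain ⟨e, he⟩ := WithBot.ne_bot_iff_exists.mp h1
    have h2 : e ≠ ⊤ := by
      intro h
      rw [h] at he
      rw [← he] at hd2
      have h3 : ((⊤ : ℕ∞) : WithBot ℕ∞) + 2 = ((⊤ : ℕ∞) : WithBot ℕ∞) := rfl
      rw [h3] at hd2
      have h4 : ((⊤ : ℕ∞) : WithBot ℕ∞) ≤ ((m : ℕ∞) : WithBot ℕ∞) := hd2
      rw [WithBot.coe_le_coe] at h4
      exact absurd h4 (by simp)
    obtain ⟨d, rfl⟩ := WithTop.ne_top_iff_exists.mp h2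
    exact ⟨d, he.symm⟩
  rw [hd] at hd1 hd2
  have hd1' : 1 ≤ d := by exact_mod_cast hd1
  have hd2' : d + 2 ≤ m := by exact_mod_cast hd2
  obtain ⟨a, ha, haP⟩ := H m d Q hQ hXQ halg hd hd1' hd2' hfin P (fun ν => (hP1 ν).1.1) hP2
    (fun ν => (hP1 ν).1.2) hP3 (fun ν => by
      obtain ⟨Λ, hΛ, hΛ'⟩ := (hP1 ν).2
      refine ⟨Λ, ?_, hΛ'⟩
      rw [hd] at hΛ
      have h1 : d + (m - Module.finrank ℤ Λ) + 1 ≤ m := by exact_mod_cast hΛ
      omega)
  refine ⟨a, ha, ?_⟩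
  set G : MvPolynomial (Fin m) ℂ := ∏ l, X l ^ (a l).toNat - ∏ l, X l ^ (-a l).toNat with hG
  have hev : ∀ y : Fin m → ℂ, (∀ l, y l ≠ 0) →
      (eval y G = 0 ↔ ∏ l, y l ^ a l = 1) := by
    intro y hy
    have h1 : ∏ l, y l ^ a l = (∏ l, y l ^ (a l).toNat) / ∏ l, y l ^ (-a l).toNat := by
      rw [← Finset.prod_div_distrib]
      refine Finset.prod_congr rfl fun l _ => ?_
      rw [← zpow_natCast, ← zpow_natCast, ← zpow_sub₀ (hy l)]
      congr 1
      omega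
    have h2 : ∏ l, y l ^ (-a l).toNat ≠ 0 :=
      Finset.prod_ne_zero_iff.mpr fun l _ => pow_ne_zero _ (hy l)
    rw [h1, div_eq_one_iff_eq h2, hG, map_sub, map_prod, map_prod, sub_eq_zero]
    simp only [map_pow, eval_X]
  have hGQ : G ∈ Q := by
    by_contra hcon
    obtain ⟨ν, h1, h2⟩ := ((hP3 G hcon).and haP).exists
    exact h1 ((hev (P ν) (hP1 ν).1.1).mpr h2)
  intro x hx
  exact (hev x hx.1).mp (hx.2 G hGQ)

end Pool.Agent.CITF
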